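import Pool.Agent.K1H27.TP.Stm

/-!
Project TP (helper27), piece DUAL.
-/

set_option autoImplicit false

namespace Pool.Agent.K1H11.TP

open MeasureTheory Set Pool.Agent.K1H27.TP

lemma ii_of_bdd {ψ : ℝ → ℝ} (hm : Measurable ψ) (hb : ∀ x, |ψ x| ≤ 1) (u v : ℝ) :
    IntervalIntegrable ψ volume u v := by
  apply (intervalIntegrable_const (c := (1 : ℝ))).mono_fun hm.aestronglyMeasurable
  refine Filter.Eventually.of_forall fun x => ?_
  simpa using hb x

lemma zeros {G : ℝ → ℝ} (hG : Continuous G) {a b c : ℝ} (hac : a ≤ c) (hcb : c ≤ b)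
    (h0 : G a = 0) (h1 : G b = 0) :
    ∃ α ∈ Icc a c, ∃ β ∈ Icc c b, ∃ z ∈ Icc α β, G α = 0 ∧ G β = 0 ∧ G z = 0 ∧
      (∀ t ∈ Icc α z, G t ≤ 0) ∧ (∀ t ∈ Icc z β, 0 ≤ G t) := by
  have hc1 : IsCompact (Icc a c ∩ G ⁻¹' {0}) :=
    isCompact_Icc.inter_right (isClosed_singleton.preimage hG)
  have hc2 : IsCompact (Icc c b ∩ G ⁻¹' {0}) :=
    isCompact_Icc.inter_right (isClosed_singleton.preimage hG)
  obtain ⟨α, hα, hαm⟩ := hc1.exists_isGreatest ⟨a, ⟨le_rfl, hac⟩, h0⟩
  obtain ⟨β, hβ, hβm⟩ := hc2.exists_isLeast ⟨b, ⟨hcb, le_rfl⟩, h1⟩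
  have hα0 : G α = 0 := hα.2
  have hβ0 : G β = 0 := hβ.2
  have hαβ : α ≤ β := hα.1.2.trans hβ.1.1
  -- no zeros strictly between
  have hz1 : ∀ t, α < t → t ≤ c → G t ≠ 0 := by
    intro t h1 h2 h3
    exact absurd (hαm ⟨⟨hα.1.1.trans h1.le, h2⟩, h3⟩) (not_le.2 h1)
  have hz2 : ∀ t, t < β → c ≤ t → G t ≠ 0 := by
    intro t h1 h2 h3
    exact absurd (hβm ⟨⟨h2, h1.le.trans hβ.1.2⟩, h3⟩) (not_le.2 h1)
  have hz : ∀ t, α < t → t < β → G t ≠ 0 := by
    intro t h1 h2
    rcases le_total t c with h | h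
    · exact hz1 t h1 h
    · exact hz2 t h2 h
  have key : (∀ t ∈ Icc α β, 0 ≤ G t) ∨ (∀ t ∈ Icc α β, G t ≤ 0) := by
    by_contra hcon
    push Not at hcon
    obtain ⟨⟨s, hs, hs1⟩, ⟨t, ht, ht1⟩⟩ := hcon
    have hsα : α < s := lt_of_le_of_ne hs.1 (by rintro rfl; linarith)
    have hsβ : s < β := lt_of_le_of_ne hs.2 (by rintro rfl; linarith)
    have htα : α < t := lt_of_le_of_ne ht.1 (by rintro rfl; linarith)
    have htβ : t < β := lt_of_le_of_ne ht.2 (by rintro rfl; linarith)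
    have : (0 : ℝ) ∈ G '' (uIcc s t) := by
      apply intermediate_value_uIcc hG.continuousOn
      rw [mem_uIcc]
      left
      exact ⟨hs1.le, ht1.le⟩
    obtain ⟨w, hw, hw0⟩ := this
    rw [mem_uIcc] at hw
    refine hz w ?_ ?_ hw0
    · rcases hw with h | h
      · exact lt_of_lt_of_le hsα h.1
      · exact lt_of_lt_of_le htα h.1
    · rcases hw with h | h
      · exact lt_of_le_of_lt h.2 htβ
      · exact lt_of_le_of_lt h.2 hsβ
  rcases key with h | h
  · refine ⟨α, hα.1, β, hβ.1, α, ⟨le_rfl, hαβ⟩, hα0, hβ0, hα0, ?_, ?_⟩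
    · intro t ht
      have : t = α := le_antisymm ht.2 ht.1
      rw [this, hα0]
    · exact fun t ht => h t ht
  · refine ⟨α, hα.1, β, hβ.1, β, ⟨hαβ, le_rfl⟩, hα0, hβ0, hβ0, ?_, ?_⟩
    · exact fun t ht => h t ht
    · intro t ht
      have : t = β := le_antisymm ht.2 ht.1
      rw [this, hβ0]

lemma pm_nonneg (ψ : ℝ → ℝ) {u v : ℝ} (h : u ≤ v) : 0 ≤ pm ψ u v :=
  intervalIntegral.integral_nonneg h fun _ _ => le_max_right _ _

lemma nm_nonneg (ψ : ℝ → ℝ) {u v : ℝ} (h : u ≤ v) : 0 ≤ nm ψ u v :=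
  intervalIntegral.integral_nonneg h fun _ _ => le_max_right _ _

lemma pm_int {ψ : ℝ → ℝ} (hm : Measurable ψ) (hb : ∀ x, |ψ x| ≤ 1) (u v : ℝ) :
    IntervalIntegrable (fun x => max (ψ x) 0) volume u v := by
  apply ii_of_bdd (hm.max measurable_const)
  intro x
  rw [abs_le]
  have := abs_le.1 (hb x)
  constructor
  · have := le_max_right (ψ x) 0
    linarith
  · exact max_le this.2 zero_le_one

lemma nm_int {ψ : ℝ → ℝ} (hm : Measurable ψ) (hb : ∀ x, |ψ x| ≤ 1) (u v : ℝ) :
    IntervalIntegrable (fun x => max (-ψ x) 0) volume u v :=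
  pm_int (ψ := fun x => -ψ x) hm.neg (fun x => by simpa using hb x) u v

lemma pm_sub_nm {ψ : ℝ → ℝ} (hm : Measurable ψ) (hb : ∀ x, |ψ x| ≤ 1) (u v : ℝ) :
    pm ψ u v - nm ψ u v = ∫ x in u..v, ψ x := by
  unfold pm nm
  rw [← intervalIntegral.integral_sub (pm_int hm hb u v) (nm_int hm hb u v)]
  congr 1
  ext x
  rcases le_total 0 (ψ x) with h | h
  · rw [max_eq_left h, max_eq_right (by linarith)]; ring
  · rw [max_eq_right h, max_eq_left (by linarith)]; ring

lemma pm_add_nm {ψ : ℝ → ℝ} (hm : Measurable ψ) (hb : ∀ x, |ψ x| ≤ 1) (u v : ℝ) :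
    pm ψ u v + nm ψ u v = ∫ x in u..v, |ψ x| := by
  unfold pm nm
  rw [← intervalIntegral.integral_add (pm_int hm hb u v) (nm_int hm hb u v)]
  congr 1
  ext x
  rcases le_total 0 (ψ x) with h | h
  · rw [max_eq_left h, max_eq_right (by linarith), abs_of_nonneg h]; ring
  · rw [max_eq_right h, max_eq_left (by linarith), abs_of_nonpos h]; ring

lemma abs_int {ψ : ℝ → ℝ} (hm : Measurable ψ) (hb : ∀ x, |ψ x| ≤ 1) (u v : ℝ) :
    IntervalIntegrable (fun x => |ψ x|) volume u v :=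
  ii_of_bdd (ψ := fun x => |ψ x|) hm.abs (fun x => by simpa using hb x) u v

lemma pm_add_nm_le {ψ : ℝ → ℝ} (hm : Measurable ψ) (hb : ∀ x, |ψ x| ≤ 1) {u v : ℝ}
    (h : u ≤ v) : pm ψ u v + nm ψ u v ≤ v - u := by
  rw [pm_add_nm hm hb]
  calc ∫ x in u..v, |ψ x| ≤ ∫ x in u..v, (1 : ℝ) :=
        intervalIntegral.integral_mono_on h (abs_int hm hb u v) intervalIntegrable_const
          fun x _ => hb x
    _ = v - u := by simp

/-- Piece DUAL with the right parentheses. -/
def S_DUAL2 : Prop := ∀ (a b τ : ℝ) (M ψ : ℝ → ℝ), a < b → 0 ≤ τ → Continuous M →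
  (∀ x ∈ Set.Icc a b, 0 ≤ M x) → ∫ x in a..b, M x = 1 →
  (∀ s1 s2 s3, a ≤ s1 → s1 < s2 → s2 < s3 → s3 ≤ b → min (M s1) (M s3) ≤ M s2) →
  Measurable ψ → (∀ x, |ψ x| ≤ 1) → 0 ≤ ∫ x in a..b, ψ x →
  (∫ t in a..b, |(∫ x in a..b, ψ x) * (∫ x in a..t, M x) - ∫ x in a..t, ψ x|)
    - τ * (∫ x in a..b, |ψ x|) ≤
    chi τ ((∫ x in a..b, M x * x) - a) + chi τ (b - ∫ x in a..b, M x * x)

theorem t_DUAL2 (h2 : S_LIN2) (h3 : S_LIN2R) (hA : S_ALG) (hC : S_CHORD) : S_DUAL2 := by
  intro a b τ M ψ hab hτ hM hM0 hM1 hU hm hb hT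
  obtain ⟨c, hc, hc1, hc2⟩ := hC a b M hab hM hM0 hU
  set T := ∫ x in a..b, ψ x with hTdef
  set F : ℝ → ℝ := fun t => ∫ x in a..t, M x with hF
  set P : ℝ → ℝ := fun t => ∫ x in a..t, ψ x with hP
  have hMi : ∀ u v, IntervalIntegrable M volume u v := fun u v => hM.intervalIntegrable u v
  have hψi : ∀ u v, IntervalIntegrable ψ volume u v := ii_of_bdd hm hb
  have hFc : Continuous F := intervalIntegral.continuous_primitive hMi a
  have hPc : Continuous P := intervalIntegral.continuous_primitive hψi a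
  have hFa : F a = 0 := by simp [hF]
  have hPa : P a = 0 := by simp [hP]
  have hFb : F b = 1 := hM1
  have hPb : P b = T := rfl
  have hGc : Continuous fun t => T * F t - P t := (continuous_const.mul hFc).sub hPc
  obtain ⟨α, hα, β, hβ, z, hz, hGα, hGβ, hGz, hn, hp⟩ :=
    zeros hGc hc.1 hc.2 (by simp [hFa, hPa]) (by simp [hFb, hPb])
  have haz : a ≤ z := hα.1.trans hz.1
  have hzb : z ≤ b := hz.2.trans hβ.2
  have hFr : ∀ t, ∫ x in t..b, M x = 1 - F t := by
    intro t
    have := intervalIntegral.integral_add_adjacent_intervals (hMi a t) (hMi t b)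
    rw [hM1] at this
    simp only [hF]
    linarith
  have hPr : ∀ t, ∫ x in t..b, ψ x = T - P t := by
    intro t
    have := intervalIntegral.integral_add_adjacent_intervals (hψi a t) (hψi t b)
    simp only [hP, hTdef]
    linarith
  -- first interval
  have e1 := h2 a α z ψ (fun t => T * F t) hα.1 hz.1 hm hb
    (continuous_const.mul hFc).continuousOn
    (by
      intro t ht
      have h := hc1 α hα t ht
      have h' : T * (F t * (α - a)) ≤ T * ((t - a) * F α) := mul_le_mul_of_nonneg_left h hT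
      have hg : T * F α = P α := by linarith
      calc T * F t * (α - a) = T * (F t * (α - a)) := by ring
        _ ≤ T * ((t - a) * F α) := h'
        _ = (t - a) * (T * F α) := by ring
        _ = (t - a) * P α := by rw [hg])
    (by
      intro t ht
      have := hn t ht
      change T * F t ≤ P t
      linarith)
  -- second interval
  have e2 := h3 z β b ψ (fun t => T * ∫ x in t..b, M x) hz.2 hβ.2 hm hb
    (by
      simp only [hFr]
      exact (continuous_const.mul (continuous_const.sub hFc)).continuousOn)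
    (by
      intro t ht
      have h := hc2 β hβ t ht
      have h' := mul_le_mul_of_nonneg_left h hT
      have hg : T * (∫ s in β..b, M s) = ∫ s in β..b, ψ s := by
        rw [hFr, hPr]
        linarith
      calc T * (∫ x in t..b, M x) * (b - β) = T * ((∫ x in t..b, M x) * (b - β)) := by ring
        _ ≤ T * ((b - t) * ∫ s in β..b, M s) := h'
        _ = (b - t) * (T * ∫ s in β..b, M s) := by ring
        _ = (b - t) * ∫ s in β..b, ψ s := by rw [hg])
    (by
      intro t ht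
      have := hp t ht
      rw [hFr, hPr]
      linarith)
  have f1 : ∫ t in a..z, |T * F t - P t| ≤ U ψ a z - T * ∫ t in a..z, F t := by
    rw [← intervalIntegral.integral_const_mul]
    refine le_trans (le_of_eq ?_) e1
    congr 1
    ext t
    rw [abs_sub_comm]
  have f2 : ∫ t in z..b, |T * F t - P t| ≤ U ψ z b - T * ∫ t in z..b, (1 - F t) := by
    rw [← intervalIntegral.integral_const_mul]
    simp only [hFr] at e2
    refine le_trans (le_of_eq ?_) e2
    congr 1
    ext t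
    rw [hPr]
    congr 1
    ring
  set p1 := ∫ t in a..z, F t with hp1
  set p2 := ∫ t in z..b, (1 - F t) with hp2
  have hF0 : ∀ t ∈ Icc a b, 0 ≤ F t := by
    intro t ht
    exact intervalIntegral.integral_nonneg ht.1 fun x hx => hM0 x ⟨hx.1, hx.2.trans ht.2⟩
  have hF1 : ∀ t ∈ Icc a b, 0 ≤ 1 - F t := by
    intro t ht
    rw [← hFr t]
    exact intervalIntegral.integral_nonneg ht.2 fun x hx => hM0 x ⟨ht.1.trans hx.1, hx.2⟩
  have hp1n : 0 ≤ p1 :=
    intervalIntegral.integral_nonneg haz fun x hx => hF0 x ⟨hx.1, hx.2.trans hzb⟩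
  have hp2n : 0 ≤ p2 :=
    intervalIntegral.integral_nonneg hzb fun x hx => hF1 x ⟨haz.trans hx.1, hx.2⟩
  -- the mean
  have hmean : ∫ t in a..b, F t = b - ∫ x in a..b, M x * x := by
    have hd : ∀ x ∈ uIcc a b, HasDerivAt F (M x) x := fun x _ =>
      intervalIntegral.integral_hasDerivAt_right (hMi a x)
        hM.aestronglyMeasurable.stronglyMeasurableAtFilter hM.continuousAt
    have := intervalIntegral.integral_mul_deriv_eq_deriv_mul (u := F) (v := fun x => x)
      (u' := M) (v' := fun _ => 1) hd (fun x _ => hasDerivAt_id x) (hMi a b)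
      intervalIntegrable_const
    simp only [mul_one, hFb, hFa, zero_mul, sub_zero, one_mul] at this
    exact this
  have hsplit : (∫ t in a..z, F t) + ∫ t in z..b, F t = ∫ t in a..b, F t :=
    intervalIntegral.integral_add_adjacent_intervals (hFc.intervalIntegrable _ _)
      (hFc.intervalIntegrable _ _)
  have hp2' : p2 = (b - z) - ∫ t in z..b, F t := by
    rw [hp2, intervalIntegral.integral_sub intervalIntegrable_const
      (hFc.intervalIntegrable _ _)]
    simp
  have hm1 : (∫ x in a..b, M x * x) - a = (z - a) - p1 + p2 := by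
    rw [hp2']
    linarith
  have hm2 : b - (∫ x in a..b, M x * x) = (b - z) + p1 - p2 := by
    rw [hp2']
    linarith
  have hGs : (∫ t in a..z, |T * F t - P t|) + ∫ t in z..b, |T * F t - P t| =
      ∫ t in a..b, |T * F t - P t| :=
    intervalIntegral.integral_add_adjacent_intervals (hGc.abs.intervalIntegrable _ _)
      (hGc.abs.intervalIntegrable _ _)
  have hAs : (∫ t in a..z, |ψ t|) + ∫ t in z..b, |ψ t| = ∫ t in a..b, |ψ t| :=
    intervalIntegral.integral_add_adjacent_intervals (abs_int hm hb _ _) (abs_int hm hb _ _)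
  have hzI : z ∈ Icc a b := ⟨haz, hzb⟩
  have hPz : P z = T * F z := by
    linarith
  have key := hA (z - a) (b - z) p1 p2 (F z) T (pm ψ a z) (nm ψ a z) (pm ψ z b) (nm ψ z b) τ
    (by linarith) (by linarith) hp1n hp2n (hF0 z hzI) (by linarith [hF1 z hzI]) hT
    (pm_nonneg ψ haz) (nm_nonneg ψ haz) (pm_nonneg ψ hzb) (nm_nonneg ψ hzb) hτ
    (pm_add_nm_le hm hb haz) (pm_add_nm_le hm hb hzb)
    (by rw [pm_sub_nm hm hb]; change P z = _; rw [hPz]; ring)
    (by rw [pm_sub_nm hm hb, hPr, hPz]; ring)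
  rw [hm1, hm2]
  have q1 := pm_add_nm hm hb a z
  have q2 := pm_add_nm hm hb z b
  unfold U at f1 f2
  calc (∫ t in a..b, |T * F t - P t|) - τ * ∫ x in a..b, |ψ x|
      = (∫ t in a..z, |T * F t - P t|) + (∫ t in z..b, |T * F t - P t|)
        - τ * (pm ψ a z + nm ψ a z + pm ψ z b + nm ψ z b) := by
          rw [hGs, ← hAs, ← q1, ← q2]; ring
    _ ≤ _ := by
          refine le_trans ?_ key
          linarith

end Pool.Agent.K1H11.TP
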